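import Pool.Agent.Q280.ML.GfB

/-!
# The canonical pair for Gel'fond's conjecture, and the Lindemann-Weierstrass theorem over finite sets

Gel'fond's conjecture: if `α₁, …, αₙ` are `ℚ`-linearly independent algebraic numbers and `l₁, …, lₙ` are `ℚ`-linearly
independent logarithms of algebraic numbers, then `exp(α₁), …, exp(αₙ), l₁, …, lₙ` are algebraically independent.

The theorem: there is a smallest pair `(A, Λ)` of a `ℚ`-space `A` of algebraic numbers and a `ℚ`-space `Λ` of logarithms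
of algebraic numbers over which the conjecture holds exactly: if the `αᵢ` are independent modulo `A` and the `lⱼ` modulo
`Λ`, then the `exp(αᵢ)`, `lⱼ` are algebraically independent over the field generated by `exp(a)`, `a ∈ A`, and `Λ`. For
every finite set `S` of complex numbers there is a smallest finite dimensional space `A_S` of algebraic numbers such that
the Lindemann-Weierstrass theorem holds over `S` modulo `A_S`, and `A` is the union of the `A_S`, `S` a finite set of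
logarithms. The conjecture is equivalent to `Λ = 0`.

## The proof (in `Pool.Agent.Q280.ML`)

`dim A + dim Λ - trdeg ℚ(exp(a), λ : a ∈ A, λ ∈ Λ)` is a supermodular function on the modular lattice of the pairs of
finite dimensional spaces. The pairs all of whose proper subpairs have a smaller value form a directed family, and the
canonical pair is its union. The theorem of Lindemann and Weierstrass bounds the defect by `dim Λ`.
-/

set_option autoImplicit false

open Module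

namespace Pool.Agent.Results.MP_c82530_nt.CanonicalPair

/-- Gel'fond's conjecture (question Q1, the frozen statement verbatim) -/
def Gelfond : Prop :=
  ∀ (n : ℕ), 1 ≤ n →
    ∀ (α l : Fin n → ℂ),
      (∀ i, IsAlgebraic ℚ (α i)) →
      (∀ i, IsAlgebraic ℚ (Complex.exp (l i))) →
      LinearIndependent ℚ α →
      LinearIndependent ℚ l →
      AlgebraicIndependent (integralClosure ℚ ℂ)
        (Sum.elim (fun i : Fin n => Complex.exp (α i)) l)

/-- the transcendence degree over `ℚ` of the field generated by `S` -/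
noncomputable def trd (S : Set ℂ) : Cardinal := Algebra.trdeg ℚ (IntermediateField.adjoin ℚ S)

/-- The conjecture with the error `C`: for `s` independent algebraic numbers and `n` independent logarithms the
transcendence degree is at least `s + n - C`. -/
def GelfondUpTo (C : ℕ) : Prop :=
  ∀ (s n : ℕ) (α : Fin s → ℂ) (l : Fin n → ℂ), (∀ i, IsAlgebraic ℚ (α i)) → (∀ i, IsAlgebraic ℚ (Complex.exp (l i))) →
    LinearIndependent ℚ α → LinearIndependent ℚ l →
    ((s + n : ℕ) : Cardinal) ≤ trd (Set.range (fun i => Complex.exp (α i)) ∪ Set.range l) + C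

/-- the numbers `exp(a)`, `a ∈ A`, and the elements of `Λ` -/
def numbers (A Λ : Submodule ℚ ℂ) : Set ℂ := Complex.exp '' (A : Set ℂ) ∪ (Λ : Set ℂ)

/-- `A` consists of algebraic numbers, and `Λ` of logarithms of algebraic numbers -/
def IsPair (A Λ : Submodule ℚ ℂ) : Prop := (∀ a ∈ A, IsAlgebraic ℚ a) ∧ ∀ l ∈ Λ, IsAlgebraic ℚ (Complex.exp l)

/-- The conjecture holds exactly over the pair `(A, Λ)`: if `α₁, …, α_s` are algebraic numbers, `ℚ`-independent modulo
`A`, and `l₁, …, lₙ` are logarithms of algebraic numbers, `ℚ`-independent modulo `Λ`, then the numbers `exp(αᵢ)`, `lⱼ`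
are algebraically independent over the field generated by the numbers of `(A, Λ)`. -/
def ExactOver (A Λ : Submodule ℚ ℂ) : Prop :=
  ∀ (s n : ℕ) (α : Fin s → ℂ) (l : Fin n → ℂ), (∀ i, IsAlgebraic ℚ (α i)) → (∀ i, IsAlgebraic ℚ (Complex.exp (l i))) →
    LinearIndependent ℚ (fun i => A.mkQ (α i)) → LinearIndependent ℚ (fun i => Λ.mkQ (l i)) →
    AlgebraicIndependent (IntermediateField.adjoin ℚ (numbers A Λ)) (Sum.elim (fun i => Complex.exp (α i)) l)

/-- the defect of a pair of finite dimensional spaces -/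
noncomputable def defect (A Λ : Submodule ℚ ℂ) : ℤ :=
  (finrank ℚ A : ℤ) + (finrank ℚ Λ : ℤ) - ((trd (numbers A Λ)).toNat : ℤ)

/-- a pair of finite dimensional spaces all of whose proper subpairs have a smaller defect -/
def Tight (A Λ : Submodule ℚ ℂ) : Prop :=
  (IsPair A Λ ∧ FiniteDimensional ℚ A ∧ FiniteDimensional ℚ Λ) ∧
    ∀ A' Λ', (A' ≤ A ∧ Λ' ≤ Λ) → ¬ (A' = A ∧ Λ' = Λ) → defect A' Λ' < defect A Λ

/-- The Lindemann-Weierstrass theorem holds over the set `S` modulo the space `A` of algebraic numbers: exponentials of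
algebraic numbers which are `ℚ`-independent modulo `A` are algebraically independent over the field generated by `S` and
by the `exp(a)` with `a` in `A`. -/
def LWOver (S : Set ℂ) (A : Submodule ℚ ℂ) : Prop :=
  ∀ (n : ℕ) (α : Fin n → ℂ), (∀ i, IsAlgebraic ℚ (α i)) → LinearIndependent ℚ (fun i => A.mkQ (α i)) →
    AlgebraicIndependent (IntermediateField.adjoin ℚ (S ∪ Complex.exp '' (A : Set ℂ))) (fun i => Complex.exp (α i))

/-- `A` is the smallest space of algebraic numbers modulo which the Lindemann-Weierstrass theorem holds over `S`, and it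
is finite dimensional. -/
def IsExceptionalSpace (S : Set ℂ) (A : Submodule ℚ ℂ) : Prop :=
  FiniteDimensional ℚ A ∧ (∀ a ∈ A, IsAlgebraic ℚ a) ∧ LWOver S A ∧
    ∀ A' : Submodule ℚ ℂ, (∀ a ∈ A', IsAlgebraic ℚ a) → LWOver S A' → A ≤ A'

section

open Pool.Agent.Q280.ML Q88.ETO

theorem isPair_iff {A Λ : Submodule ℚ ℂ} : IsPair A Λ ↔ (A, Λ) ≤ (AlgQ, LogQ) := Iff.rfl

theorem exact_eq {A Λ : Submodule ℚ ℂ} : ExactOver A Λ ↔ ExactG (A, Λ) := Iff.rfl

theorem defect_eq {A Λ : Submodule ℚ ℂ} (hA : FiniteDimensional ℚ A) (hΛ : FiniteDimensional ℚ Λ) :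
    defect A Λ = Us.LSys.dfc (A := GSys) (A, Λ) := by
  have h1 : (trd (numbers A Λ)).toNat = (Q241.SX.M.eRk (GG (A, Λ))).toNat :=
    Pool.Agent.Q280.SD.trdeg_adjoin (GG (A, Λ)) (GG_rk hA hΛ)
  unfold defect Us.LSys.dfc Us.LSys.rk
  rw [h1]
  change _ = ((finrank ℚ A + finrank ℚ Λ : ℕ) : ℤ) - ((Q241.SX.M.eRk (GG (A, Λ))).toNat : ℤ)
  push_cast
  ring

theorem tight_iff {A Λ : Submodule ℚ ℂ} : Tight A Λ ↔ finG (A, Λ) ∧
    ∀ W, ⊥ ≤ W → W < (A, Λ) → Us.LSys.dfc (A := GSys) W < Us.LSys.dfc (A := GSys) (A, Λ) := by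
  unfold Tight
  refine and_congr_right fun hV => ?_
  constructor
  · rintro h ⟨A', Λ'⟩ - h2
    have h3 := h A' Λ' ⟨h2.le.1, h2.le.2⟩ (fun h => h2.ne (Prod.ext h.1 h.2))
    rw [defect_eq hV.2.1 hV.2.2, defect_eq (fd_le hV.2.1 h2.le.1) (fd_le hV.2.2 h2.le.2)] at h3
    exact h3
  · rintro h A' Λ' h3 h4
    have h5 := h (A', Λ') bot_le (lt_of_le_of_ne ⟨h3.1, h3.2⟩ (fun h => h4 ⟨congrArg Prod.fst h, congrArg Prod.snd h⟩))
    rw [defect_eq hV.2.1 hV.2.2, defect_eq (fd_le hV.2.1 h3.1) (fd_le hV.2.2 h3.2)]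
    exact h5

theorem rank_ai {ι : Type} [Fintype ι] {v : ι → ℂ} (h : AlgebraicIndependent ℚ v) {X : Set ℂ}
    (hX : ∀ i, v i ∈ X) : ((Fintype.card ι : ℕ) : ℕ∞) ≤ Q241.SX.M.eRk X := by
  have h3 : Q241.SX.M.Indep (Set.range v) := by
    rw [AlgebraicIndependent.matroid_indep_iff]
    exact h.coe_range
  have h4 := h3.encard_le_eRk_of_subset (show Set.range v ⊆ X by
    rintro _ ⟨i, rfl⟩
    exact hX i)
  have h5 : (Set.range v).encard = ((Fintype.card ι : ℕ) : ℕ∞) := by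
    rw [← Set.image_univ, h.injective.encard_image, Set.encard_univ, ENat.card_eq_coe_fintype_card]
  rwa [h5] at h4

theorem exists_basis_N {T : Submodule ℚ ℂ} (hf : FiniteDimensional ℚ T) {N : ℕ} (hT : finrank ℚ T = N) :
    ∃ t : Fin N → ℂ, LinearIndependent ℚ t ∧ (∀ i, t i ∈ T) ∧ Submodule.span ℚ (Set.range t) = T := by
  subst hT
  exact exists_basis_Q T

theorem gelfond_iff : Gelfond ↔ CG = ⊥ := by
  constructor
  · intro h
    rw [CG_bot_iff]
    intro V hV
    obtain ⟨W₁, h1, h2, h3, h4⟩ := exists_grow AlgQ_inf hV.2.1 hV.1.1 (finrank ℚ V.2 + 1)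
    obtain ⟨W₂, k1, k2, k3, k4⟩ := exists_grow LogQ_inf hV.2.2 hV.1.2 (finrank ℚ V.1 + 1)
    have k4' : finrank ℚ W₂ = finrank ℚ V.1 + (finrank ℚ V.2 + 1) := by omega
    obtain ⟨α, a1, a2, a3⟩ := exists_basis_N h3 h4
    obtain ⟨l, l1, l2, l3⟩ := exists_basis_N k3 k4'
    have h5 := h _ (by omega) α l (fun i => h2 (a2 i)) (fun i => k2 (l2 i)) a1 l1
    have h6 : AlgebraicIndependent ℚ (Sum.elim (fun i => Complex.exp (α i)) l) :=
      h5.restrictScalars (FaithfulSMul.algebraMap_injective ℚ _)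
    have hfin : finG (W₁, W₂) := ⟨⟨h2, k2⟩, h3, k3⟩
    have h7 := rank_ai h6 (X := GG (W₁, W₂)) (by
      rintro (i | i)
      · exact Or.inl ⟨_, a2 i, rfl⟩
      · exact Or.inr (l2 i))
    have h8 := Us.LSys.coe_rk (A := GSys) hfin
    change _ = Q241.SX.M.eRk (GG (W₁, W₂)) at h8
    rw [← h8, Fintype.card_sum, Fintype.card_fin] at h7
    have h9 : finrank ℚ V.1 + (finrank ℚ V.2 + 1) + (finrank ℚ V.1 + (finrank ℚ V.2 + 1)) ≤
        Us.LSys.rk (A := GSys) (W₁, W₂) := by exact_mod_cast h7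
    refine (dfcG_mono (W := (W₁, W₂)) hfin ⟨h1, k1⟩).trans ?_
    unfold Us.LSys.dfc
    change ((finrank ℚ W₁ + finrank ℚ W₂ : ℕ) : ℤ) - _ ≤ 0
    omega
  · intro h n _ α l hα hl hα' hl'
    have h0 : ∀ {x : Fin n → ℂ}, LinearIndependent ℚ x →
        LinearIndependent ℚ (fun i => (⊥ : Submodule ℚ ℂ).mkQ (x i)) := fun hx =>
      li_of_inf_bot hx (inf_bot_eq _)
    have h1 := exact_CG n n α l hα hl (by rw [h]; exact h0 hα') (by rw [h]; exact h0 hl')
    have h2 : AlgebraicIndependent ℚ (Sum.elim (fun i => Complex.exp (α i)) l) :=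
      h1.restrictScalars (FaithfulSMul.algebraMap_injective ℚ _)
    exact h2.extendScalars _

theorem trd_eq {S : Set ℂ} (hS : S.Finite) : ∃ r : ℕ, Q241.SX.M.eRk S = (r : ℕ∞) ∧ trd S = (r : Cardinal) := by
  have h1 : Q241.SX.M.eRk S < ⊤ := (Q241.SX.M.eRk_le_encard S).trans_lt hS.encard_lt_top
  obtain ⟨s, hs⟩ := ENat.ne_top_iff_exists.1 h1.ne
  refine ⟨s, hs.symm, ?_⟩
  have h2 := Pool.Agent.TH813.Rel.toENat_trdeg (k := ℚ) S
  change Cardinal.toENat (trd S) = Q241.SX.M.eRk S at h2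
  rw [← hs] at h2
  exact Cardinal.toENat_eq_natCast.mp h2

theorem upTo_iff (C : ℕ) : GelfondUpTo C ↔ (FiniteDimensional ℚ CG.1 ∧ FiniteDimensional ℚ CG.2) ∧
    Us.LSys.dfc (A := GSys) CG ≤ C := by
  have key : GelfondUpTo C ↔ ∀ V, finG V → Us.LSys.dfc (A := GSys) V ≤ C := by
    constructor
    · intro h V hV
      have f1 := hV.2.1
      have f2 := hV.2.2
      obtain ⟨α, a1, a2, a3⟩ := exists_basis_Q V.1
      obtain ⟨l, l1, l2, l3⟩ := exists_basis_Q V.2
      have h1 := h _ _ α l (fun i => hV.1.1 (a2 i)) (fun i => hV.1.2 (l2 i)) a1 l1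
      obtain ⟨r, r1, r2⟩ := trd_eq (gl_finite α l)
      change _ ≤ trd (gl α l) + _ at h1
      rw [r2] at h1
      have h2 : finrank ℚ V.1 + finrank ℚ V.2 ≤ r + C := by exact_mod_cast h1
      have h3 : (r : ℕ∞) ≤ Q241.SX.M.eRk (GG V) := by
        rw [← r1]
        exact Q241.SX.M.eRk_mono (gl_sub a2 l2)
      have h4 := Us.LSys.coe_rk (A := GSys) hV
      change _ = Q241.SX.M.eRk (GG V) at h4
      rw [← h4] at h3
      have h5 : r ≤ Us.LSys.rk (A := GSys) V := by exact_mod_cast h3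
      unfold Us.LSys.dfc
      change ((finrank ℚ V.1 + finrank ℚ V.2 : ℕ) : ℤ) - _ ≤ _
      omega
    · intro h s n α l hα hl hα' hl'
      have f1 : finrank ℚ (Submodule.span ℚ (Set.range α)) = s := by
        rw [finrank_span_eq_card hα', Fintype.card_fin]
      have f2 : finrank ℚ (Submodule.span ℚ (Set.range l)) = n := by
        rw [finrank_span_eq_card hl', Fintype.card_fin]
      have hfin : finG (Submodule.span ℚ (Set.range α), Submodule.span ℚ (Set.range l)) := by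
        refine ⟨⟨?_, ?_⟩, fd_span (Set.finite_range _), fd_span (Set.finite_range _)⟩
        · change Submodule.span ℚ (Set.range α) ≤ AlgQ
          rw [Submodule.span_le]
          rintro _ ⟨i, rfl⟩
          exact hα i
        · change Submodule.span ℚ (Set.range l) ≤ LogQ
          rw [Submodule.span_le]
          rintro _ ⟨i, rfl⟩
          exact hl i
      have h1 := h _ hfin
      obtain ⟨r, r1, r2⟩ := trd_eq (gl_finite α l)
      change _ ≤ trd (gl α l) + _
      rw [r2]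
      have h3 : Q241.SX.M.eRk (GG (Submodule.span ℚ (Set.range α), Submodule.span ℚ (Set.range l))) ≤ (r : ℕ∞) := by
        rw [← r1, ← Q241.SX.M.eRk_closure_eq (gl α l)]
        exact Q241.SX.M.eRk_mono (GG_span α l)
      have h4 := Us.LSys.coe_rk (A := GSys) hfin
      change _ = Q241.SX.M.eRk (GG _) at h4
      rw [← h4] at h3
      have h5 : Us.LSys.rk (A := GSys) (Submodule.span ℚ (Set.range α), Submodule.span ℚ (Set.range l)) ≤ r := by
        exact_mod_cast h3
      unfold Us.LSys.dfc at h1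
      change ((finrank ℚ (Submodule.span ℚ (Set.range α)) + finrank ℚ (Submodule.span ℚ (Set.range l)) : ℕ) : ℤ) -
        _ ≤ _ at h1
      rw [f1, f2] at h1
      have h6 : s + n ≤ r + C := by omega
      exact_mod_cast h6
  rw [key]
  constructor
  · intro h
    have h1 : finG CG := CG_fin_iff.mpr ⟨C, h⟩
    exact ⟨h1.2, h _ h1⟩
  · rintro ⟨h1, h2⟩ V hV
    exact (Pool.Agent.Q280.ML.Bs.le_core (Us.LSys.sm (A := GSys)) (V := V) ⟨CG_le_top, h1⟩ hV).trans h2

/-! ### Conjugation -/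

theorem fin_bar {V : Submodule ℚ ℂ × Submodule ℚ ℂ} (hV : V ≤ (AlgQ, LogQ)) :
    (barQ V.1, barQ V.2) ≤ (AlgQ, LogQ) := by
  have h0 : ∀ x : ℂ, IsAlgebraic ℚ ((starRingEnd ℂ) x) → IsAlgebraic ℚ x := fun x hx => by
    have h1 := hx.algHom (cj : ℂ →ₐ[ℚ] ℂ)
    have h2 : (cj : ℂ →ₐ[ℚ] ℂ) ((starRingEnd ℂ) x) = x := Complex.conj_conj x
    rwa [h2] at h1
  constructor
  · intro x hx
    exact h0 x (hV.1 (mem_barQ.mp hx))
  · intro x hx
    have h1 := hV.2 (mem_barQ.mp hx)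
    rw [mem_LogQ, Complex.exp_conj] at h1
    exact h0 _ h1

theorem rk_bar (V : Submodule ℚ ℂ × Submodule ℚ ℂ) :
    Q241.SX.M.eRk (GG (barQ V.1, barQ V.2)) = Q241.SX.M.eRk (GG V) := by
  have key : ∀ V : Submodule ℚ ℂ × Submodule ℚ ℂ,
      Q241.SX.M.eRk (GG (barQ V.1, barQ V.2)) ≤ Q241.SX.M.eRk (GG V) := fun V => by
    refine (eRk_image_le _).trans (Q241.SX.M.eRk_mono ?_)
    rintro _ ⟨x, (⟨t, ht, rfl⟩ | hx), rfl⟩
    · rw [cj_apply, ← Complex.exp_conj]
      exact Or.inl ⟨_, mem_barQ.mp ht, rfl⟩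
    · exact Or.inr (mem_barQ.mp hx)
  have h2 : ∀ T : Submodule ℚ ℂ, barQ (barQ T) = T := fun T => by
    ext x
    rw [mem_barQ, mem_barQ, Complex.conj_conj]
  apply le_antisymm (key V)
  have h1 := key (barQ V.1, barQ V.2)
  simp only [h2] at h1
  exact h1

theorem dfc_bar' (V : Submodule ℚ ℂ × Submodule ℚ ℂ) :
    Us.LSys.dfc (A := GSys) (barQ V.1, barQ V.2) = Us.LSys.dfc (A := GSys) V := by
  unfold Us.LSys.dfc Us.LSys.rk
  change ((finrank ℚ (barQ V.1) + finrank ℚ (barQ V.2) : ℕ) : ℤ) -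
    ((Q241.SX.M.eRk (GG (barQ V.1, barQ V.2))).toNat : ℤ) =
    ((finrank ℚ V.1 + finrank ℚ V.2 : ℕ) : ℤ) - ((Q241.SX.M.eRk (GG V)).toNat : ℤ)
  rw [finrank_barQ, finrank_barQ, rk_bar]

theorem conj_CG : CG ≤ (barQ CG.1, barQ CG.2) := by
  have h2 : ∀ T : Submodule ℚ ℂ, barQ (barQ T) = T := fun T => by
    ext x
    rw [mem_barQ, mem_barQ, Complex.conj_conj]
  have hinf : ∀ T T' : Submodule ℚ ℂ, barQ (T ⊓ T') = barQ T ⊓ barQ T' := fun T T' => by
    ext x
    rw [mem_barQ]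
    change _ ↔ x ∈ barQ T ∧ x ∈ barQ T'
    rw [mem_barQ, mem_barQ]
    rfl
  have h0 := fin_bar CG_le_top
  refine CG_le h0 ((exactG_iff h0).mpr fun V hV => ?_)
  have h3 := conc_CG (barQ V.1, barQ V.2) ⟨fin_bar hV.1, fd_barQ hV.2.1, fd_barQ hV.2.2⟩
  rw [dfc_bar'] at h3
  have h4 : ((barQ V.1, barQ V.2) : Submodule ℚ ℂ × Submodule ℚ ℂ) ⊓ CG =
      (barQ (V ⊓ (barQ CG.1, barQ CG.2)).1, barQ (V ⊓ (barQ CG.1, barQ CG.2)).2) := by
    refine Prod.ext ?_ ?_
    · change barQ V.1 ⊓ CG.1 = barQ (V.1 ⊓ barQ CG.1)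
      rw [hinf, h2]
    · change barQ V.2 ⊓ CG.2 = barQ (V.2 ⊓ barQ CG.2)
      rw [hinf, h2]
  rw [h4, dfc_bar'] at h3
  exact h3

theorem isExc (S : Set ℂ) (hS : S.Finite) : IsExceptionalSpace S (AS S hS) :=
  ⟨AS_fd hS, fun _ ha => AS_alg hS ha, exact_AS hS, fun _ h1 h2 => AS_le hS h1 h2⟩

theorem exc_unique {S : Set ℂ} {A A' : Submodule ℚ ℂ} (h : IsExceptionalSpace S A) (h' : IsExceptionalSpace S A') :
    A = A' := le_antisymm (h.2.2.2 A' h'.2.1 h'.2.2.1) (h'.2.2.2 A h.2.1 h.2.2.1)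

end

/-- **Main result.** (I) For every finite set `S` of complex numbers there is a smallest space of algebraic numbers
modulo which the Lindemann-Weierstrass theorem holds over `S`, and it is finite dimensional.

(II) There is a pair `(A, Λ)` of a `ℚ`-space of algebraic numbers and a `ℚ`-space of logarithms of algebraic numbers with
the following properties.
(1) Gel'fond's conjecture holds exactly over `(A, Λ)`, and `(A, Λ)` is contained in every such pair.
(2) It is the union of the pairs of finite dimensional spaces all of whose proper subpairs have a smaller defect.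
(3) The defect of a pair `(A', Λ')` of finite dimensional spaces is at most the defect of `(A' ∩ A, Λ' ∩ Λ)`.
(4) `A` is the union of the exceptional spaces of (I) of the finite sets `S` of logarithms of algebraic numbers.
(5) Gel'fond's conjecture is true if and only if `Λ = 0`, and if and only if `A = 0` and `Λ = 0`.
(6) The conjecture with the error `C` is true if and only if `Λ` and `A` are finite dimensional and `(A, Λ)` has defect
at most `C`; if `Λ` is finite dimensional then so is `A`.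
(7) `A` and `Λ` are stable under complex conjugation. -/
theorem result :
    (∀ S : Set ℂ, S.Finite → ∃ A : Submodule ℚ ℂ, IsExceptionalSpace S A) ∧
    ∃ A Λ : Submodule ℚ ℂ, IsPair A Λ ∧
      (ExactOver A Λ ∧ ∀ A' Λ', IsPair A' Λ' → ExactOver A' Λ' → A ≤ A' ∧ Λ ≤ Λ') ∧
      (∀ a l, (a ∈ A ∧ l ∈ Λ) ↔ ∃ A' Λ', Tight A' Λ' ∧ a ∈ A' ∧ l ∈ Λ') ∧
      (∀ A' Λ', IsPair A' Λ' → FiniteDimensional ℚ A' → FiniteDimensional ℚ Λ' →
        defect A' Λ' ≤ defect (A' ⊓ A) (Λ' ⊓ Λ)) ∧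
      (∀ a, a ∈ A ↔ ∃ (S : Set ℂ) (A' : Submodule ℚ ℂ), S.Finite ∧ (∀ l ∈ S, IsAlgebraic ℚ (Complex.exp l)) ∧
        IsExceptionalSpace S A' ∧ a ∈ A') ∧
      ((Gelfond ↔ Λ = ⊥) ∧ (Gelfond ↔ A = ⊥ ∧ Λ = ⊥)) ∧
      ((∀ C : ℕ, GelfondUpTo C ↔ (FiniteDimensional ℚ A ∧ FiniteDimensional ℚ Λ) ∧ defect A Λ ≤ C) ∧
        (FiniteDimensional ℚ Λ → FiniteDimensional ℚ A)) ∧
      ((∀ a ∈ A, (starRingEnd ℂ) a ∈ A) ∧ ∀ l ∈ Λ, (starRingEnd ℂ) l ∈ Λ) := by
  open Pool.Agent.Q280.ML in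
  refine ⟨fun S hS => ⟨_, isExc S hS⟩, CG.1, CG.2, CG_le_top, ⟨exact_CG, fun A' Λ' h1 h2 => ?_⟩, fun a l => ?_,
    fun A' Λ' h1 h2 h3 => ?_, fun a => ?_, ⟨?_, ?_⟩, ⟨fun C => ?_, CG_fd⟩, fun a ha => mem_barQ.mp (conj_CG.1 ha),
    fun l hl => mem_barQ.mp (conj_CG.2 hl)⟩
  · have h3 : CG ≤ (A', Λ') := CG_le h1 h2
    exact ⟨h3.1, h3.2⟩
  · constructor
    · rintro ⟨ha, hl⟩
      have h1 : ((Submodule.span ℚ {a}, Submodule.span ℚ {l}) : Submodule ℚ ℂ × Submodule ℚ ℂ) ≤ CG :=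
        ⟨(Submodule.span_singleton_le_iff_mem _ _).mpr ha, (Submodule.span_singleton_le_iff_mem _ _).mpr hl⟩
      obtain ⟨T, h2, h3⟩ := Bs.exists_tight_ge (Us.LSys.sm (A := GSys))
        (a := ((Submodule.span ℚ {a}, Submodule.span ℚ {l}) : Submodule ℚ ℂ × Submodule ℚ ℂ))
        ⟨h1.trans CG_le_top, fd_span (Set.finite_singleton a), fd_span (Set.finite_singleton l)⟩ h1
      exact ⟨T.1, T.2, tight_iff.mpr h2, h3.1 (Submodule.mem_span_singleton_self a),
        h3.2 (Submodule.mem_span_singleton_self l)⟩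
    · rintro ⟨A', Λ', h1, h2, h3⟩
      have h5 : (A', Λ') ≤ CG := Bs.Tight.le_core (X := GSys.X) (T := (A', Λ')) (tight_iff.mp h1)
      exact ⟨h5.1 h2, h5.2 h3⟩
  · rw [defect_eq h2 h3, defect_eq (fd_le h2 inf_le_left) (fd_le h3 inf_le_left)]
    exact conc_CG (A', Λ') ⟨h1, h2, h3⟩
  · rw [CG_eq_UA]
    constructor
    · rintro ⟨S, hS, h1, h2⟩
      exact ⟨S, _, hS, fun l hl => h1 hl, isExc S hS, h2⟩
    · rintro ⟨S, A', hS, h1, h2, h3⟩
      refine ⟨S, hS, fun l hl => h1 l hl, ?_⟩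
      rwa [exc_unique (isExc S hS) h2]
  · rw [gelfond_iff]
    exact ⟨fun h => congrArg Prod.snd h, CG_bot⟩
  · rw [gelfond_iff]
    exact ⟨fun h => ⟨congrArg Prod.fst h, congrArg Prod.snd h⟩, fun h => Prod.ext h.1 h.2⟩
  · rw [upTo_iff]
    refine and_congr_right fun hf => ?_
    rw [defect_eq hf.1 hf.2]

end Pool.Agent.Results.MP_c82530_nt.CanonicalPair
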