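import Pool.Agent.Q147.MM.Inst
import Pool.Agent.Q147.MO.Psi
import Pool.Agent.Q147.MP.SeqB
import Pool.Agent.H340R2.LW2
import Pool.Agent.H297R2.ExpIndep

/-!
# Gel'fond's conjecture: a large linearly independent family of products of exponentials and logarithms

Let `l_p` (`p` prime) be logarithms of algebraic numbers, linearly independent over `ℚ` (or linear
forms in logarithms, linearly independent with `1` over the field `ℚ̄` of algebraic numbers), and let
`l_n = ∏ l_p ^ v_p(n)` be the monomials in these numbers.  The conjecture says that all products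
`e ^ a l_n` (`a` algebraic, `n ≥ 1`) are linearly independent over `ℚ̄`.  `Ω(n)` is the number of prime
factors of `n`, the degree of the monomial.

(1) There are ONE set `B` of positive integers, closed under divisors, which for every `k` contains
almost all integers with `Ω(n) ≤ k`, and for every algebraic number `a` a number `n₀(a)` such that all
the products `e ^ a l_n` (`a` algebraic, `n ∈ B`, `n ≥ n₀(a)`) are linearly independent over `ℚ̄`.  A
combination of them which is a linear form in `1` and logarithms of algebraic numbers, or has an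
algebraic exponential, is trivial: it contains only terms with `n = 1` and terms `β l_p` (`p` prime,
`β` algebraic).  Terms `β e ^ a` with `a` arbitrary can be added, if the other terms have
`n ≥ n₀(a)`.

(2) In terms of polynomials: let `α_1, ..., α_r` be algebraic numbers, linearly independent over `ℚ`,
and `D` a number.  There is `n₁` such that a nonzero polynomial `f (X, Y)` with algebraic coefficients,
of degree at most `D` in `X = (X_1, ..., X_r)`, whose monomials in `Y` are the `Y^(n)` with `n = 1` or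
`n ∈ B`, `n ≥ n₁`, does not vanish at `X_i = e ^ α_i`, `Y_p = l_p`.  The set `B` does not depend on
`D` and the `α_i`.

(3) The exponentials can be replaced by an arbitrary sequence `w_0, w_1, ...` of complex numbers,
linearly independent over `ℚ̄`.

The proof: for every finite-dimensional space `W` of coefficients we take the greedy basis (in the
natural order) of the products of elements of `W` with the monomials `l_n`, `n = p_1 ⋯ p_k` with
`(p_1 ⋯ p_j) ^ 3 ≤ p_{j+1}`.  By the hyperplane case of the linear subgroup theorem (Waldschmidt,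
Roy) it is everything outside a thin set of exceptions; the integers without divisors in this set
form a set closed under divisors.  The property to belong to the greedy basis for `W` is inherited by
the subspaces of `W`; this allows to let `W` grow with `n`.  The theorem of Lindemann and
Weierstrass is used for the coefficients.
-/

set_option autoImplicit false

namespace Pool.Agent.Results.MP_c82530_nt.ExponentialMonomials

open Filter Topology
open Pool.Agent.Q147.MM Pool.Agent.Q147.MO Pool.Agent.Q147.MP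
open Pool.Agent.Y787 (QC mem_QC)
open Pool.Agent.H301R2.SSE (Lt Lt_log Lt_alg Lt_mul)

/-- algebraic over the rational numbers -/
abbrev Alg (z : ℂ) : Prop := IsAlgebraic ℚ z

/-- `z = γ + β₁ λ₁ + … + β_m λ_m` with `γ`, the `β_i` and the exponentials of the `λ_i` algebraic:
`z` is a linear form in `1` and logarithms of algebraic numbers, with algebraic coefficients -/
def LinForm (z : ℂ) : Prop := ∃ (m : ℕ) (γ : ℂ) (β lg : Fin m → ℂ), Alg γ ∧ (∀ i, Alg (β i)) ∧
  (∀ i, Alg (Complex.exp (lg i))) ∧ z = γ + ∑ i, β i * lg i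

/-- the monomial `∏ l_p ^ v_p(n)` over the prime factors `p` of `n` -/
noncomputable def mono (l : ℕ → ℂ) (n : ℕ) : ℂ := ∏ p ∈ n.primeFactors, l p ^ n.factorization p

/-- the number of the `n ∈ B` with `1 ≤ n ≤ N` -/
noncomputable def count (B : Set ℕ) (N : ℕ) : ℕ := Set.ncard {n | n ∈ B ∧ 1 ≤ n ∧ n ≤ N}

/-- number of prime factors, with multiplicity -/
abbrev Om (n : ℕ) : ℕ := ArithmeticFunction.cardFactors n

theorem LinForm.mem {z : ℂ} (h : LinForm z) : z ∈ Lt := by
  obtain ⟨m, γ, β, l, hγ, hβ, hl, rfl⟩ := h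
  exact Lt.add_mem (Lt_alg hγ) (Submodule.sum_mem _ fun i _ => Lt_mul (hβ i) (Lt_log (hl i)))

theorem linForm_of_exp {z : ℂ} (h : Alg (Complex.exp z)) : LinForm z :=
  ⟨1, 0, fun _ => 1, fun _ => z, isAlgebraic_zero, fun _ => isAlgebraic_one, fun _ => h, by simp⟩

theorem mono_eq (l : ℕ → ℂ) (n : ℕ) : mono l n = lam l n := by
  rw [mono, lam, Finsupp.prod, Nat.support_factorization]

theorem count_eq (B : Set ℕ) (N : ℕ) : count B N = cnt B N := by
  rw [count, cnt, ← Set.ncard_coe_finset]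
  congr 1
  ext n
  rw [Finset.mem_coe, mem_upto]
  exact and_comm

/-- the `l p` (`p` prime) are linear forms in logarithms of algebraic numbers, and `1` and the `l p`
are linearly independent over the field of algebraic numbers -/
def Free (l : ℕ → ℂ) : Prop := (∀ p : ℕ, p.Prime → LinForm (l p)) ∧
  ∀ F : Finset ℕ, (∀ p ∈ F, p.Prime) → ∀ (γ : ℂ) (β : ℕ → ℂ), Alg γ → (∀ p, Alg (β p)) →
    γ + ∑ p ∈ F, β p * l p = 0 → γ = 0 ∧ ∀ p ∈ F, β p = 0

theorem free_of_log {l : ℕ → ℂ} (hl : ∀ p : ℕ, p.Prime → Alg (Complex.exp (l p)))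
    (hli : LinearIndependent ℚ (fun p : Nat.Primes => l p)) : Free l := by
  classical
  refine ⟨fun p hp => linForm_of_exp (hl p hp), fun F hF γ β hγ hβ h => ?_⟩
  have h1 := (goodC l hl hli).li
  let c : ℕ → QC ℂ := fun q => if q = 1 then ⟨γ, mem_QC.2 hγ⟩ else ⟨β q, mem_QC.2 (hβ q)⟩
  have hF1 : (1 : ℕ) ∉ F := fun h => Nat.not_prime_one (hF 1 h)
  have h2 : LinearIndepOn (QC ℂ) (lam l) ((insert 1 F : Finset ℕ) : Set ℕ) := by
    refine h1.mono fun q hq => ?_
    rw [Finset.mem_coe, Finset.mem_insert] at hq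
    exact hq.imp id (hF q)
  have h3 := linearIndepOn_finset_iff.1 h2 c (by
    rw [Finset.sum_insert hF1, ← h]
    congr 1
    · rw [lam_one, Algebra.smul_def, mul_one]
      simp only [c, if_true]
      rfl
    · refine Finset.sum_congr rfl fun p hp => ?_
      rw [lam_prime l (hF p hp), Algebra.smul_def]
      simp only [c, if_neg (hF p hp).ne_one]
      rfl)
  refine ⟨?_, fun p hp => ?_⟩
  · have h4 := h3 1 (Finset.mem_insert_self _ _)
    simp only [c, if_true] at h4
    exact congrArg Subtype.val h4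
  · have h4 := h3 p (Finset.mem_insert_of_mem hp)
    simp only [c, if_neg (hF p hp).ne_one] at h4
    exact congrArg Subtype.val h4

theorem Free.good {l : ℕ → ℂ} (h : Free l) : Good Lt l where
  mem p hp := (h.1 p hp).mem
  li := by
    classical
    refine li_of_fin l fun n p hinj hp => ?_
    rw [Fintype.linearIndependent_iff]
    intro g hg
    rw [Fin.sum_univ_succ] at hg
    simp only [Fin.cons_zero, Fin.cons_succ] at hg
    let β : ℕ → ℂ := fun q => if hq : ∃ i, p i = q then (g hq.choose.succ : ℂ) else 0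
    have hβp : ∀ i, β (p i) = (g i.succ : ℂ) := by
      intro i
      have hq : ∃ j, p j = p i := ⟨i, rfl⟩
      have h1 : hq.choose = i := hinj hq.choose_spec
      simp only [β, dif_pos hq, h1]
    have hβ : ∀ q, Alg (β q) := by
      intro q
      by_cases hq : ∃ i, p i = q
      · simp only [β, dif_pos hq]
        exact mem_QC.1 (g _).2
      · simp only [β, dif_neg hq]
        exact isAlgebraic_zero
    have h2 := h.2 (Finset.univ.image p) (fun q hq => by
      obtain ⟨i, _, rfl⟩ := Finset.mem_image.1 hq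
      exact hp i) (g 0 : ℂ) β (mem_QC.1 (g 0).2) hβ (by
      rw [Finset.sum_image (fun i _ j _ hij => hinj hij), ← hg, Algebra.smul_def, mul_one]
      congr 1
      refine Finset.sum_congr rfl fun i _ => ?_
      rw [hβp, Algebra.smul_def]
      rfl)
    intro i
    refine Fin.cases ?_ (fun j => ?_) i
    · exact Subtype.ext h2.1
    · refine Subtype.ext ?_
      rw [← hβp j]
      exact h2.2 _ (Finset.mem_image_of_mem p (Finset.mem_univ j))

theorem smul_eq {γ : ℂ} (hγ : Alg γ) (z : ℂ) :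
    γ * z = (⟨γ, mem_QC.2 hγ⟩ : QC ℂ) • z := by
  rw [Algebra.smul_def]
  rfl

/-- `B` contains almost all integers with at most `k` prime factors, for every `k ≥ 1` -/
def AlmostAll (B : Set ℕ) : Prop := ∀ k : ℕ, 1 ≤ k →
  Tendsto (fun N : ℕ => (count {n | n ∈ B ∧ Om n ≤ k} N : ℝ) / count {n | Om n ≤ k} N) atTop (𝓝 1)

/-- `B` is a set of positive integers which contains `1` and all divisors of its elements -/
def DivisorClosed (B : Set ℕ) : Prop := 1 ∈ B ∧ ∀ n ∈ B, 0 < n ∧ ∀ d : ℕ, d ∣ n → d ∈ B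

/-- neither a linear form in logarithms, nor the logarithm of an algebraic number -/
def Beyond (z : ℂ) : Prop := ¬ LinForm z ∧ ¬ Alg (Complex.exp z)

theorem not_beyond {z : ℂ} (h : ¬ Beyond z) : z ∈ Lt := by
  by_contra h1
  exact h ⟨fun h2 => h1 h2.mem, fun h2 => h1 (linForm_of_exp h2).mem⟩

theorem almostAll_of {B : Set ℕ}
    (h : ∀ k : ℕ, Tendsto (fun N : ℕ => (cnt (Sk (k + 1) \ B) N : ℝ) / cnt (Sk (k + 1)) N) atTop
      (𝓝 0)) : AlmostAll B := by
  intro k hk
  obtain ⟨j, rfl⟩ := Nat.exists_eq_add_of_le' hk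
  refine (dens_one _ _ (Sk_pos (j + 1)) (h j)).congr fun N => ?_
  rw [count, count, cnt, cnt, ← Set.ncard_coe_finset, ← Set.ncard_coe_finset]
  congr 3
  · ext n
    rw [Finset.mem_coe, mem_upto]
    constructor
    · rintro ⟨h1, h2, h3⟩
      exact ⟨⟨h2, h3.2⟩, h1⟩
    · rintro ⟨⟨h1, h2⟩, h3⟩
      exact ⟨h3, h1, Nat.one_le_iff_ne_zero.1 h3.1, h2⟩
  · ext n
    rw [Finset.mem_coe, mem_upto]
    constructor
    · rintro ⟨h1, h2⟩
      exact ⟨h2.2, h1⟩
    · rintro ⟨h1, h2⟩
      exact ⟨h2, Nat.one_le_iff_ne_zero.1 h2.1, h1⟩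

/-- exponentials of distinct algebraic numbers are linearly independent -/
theorem lw (A : Finset ℂ) (hA : ∀ α ∈ A, Alg α) (β : ℂ → ℂ) (hβ : ∀ α, Alg (β α))
    (h : ∑ α ∈ A, β α * Complex.exp α = 0) : ∀ α ∈ A, β α = 0 :=
  Pool.Agent.H340R2.LW.lindemann_weierstrass A id β hA (fun α _ => hβ α) (fun _ _ _ _ h => h) h

/-- a combination of exponentials which is algebraic -/
theorem lw_const (A : Finset ℂ) (hA : ∀ α ∈ A, Alg α) (β : ℂ → ℂ) (hβ : ∀ α, Alg (β α)) (c : ℂ)
    (hc : Alg c) (h : ∑ α ∈ A, β α * Complex.exp α = c) : ∀ α ∈ A, α ≠ 0 → β α = 0 := by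
  classical
  intro α hα hα0
  let β' : ℂ → ℂ := fun a => (if a ∈ A then β a else 0) - if a = 0 then c else 0
  have h1 : ∑ a ∈ insert 0 A, β' a * Complex.exp a = 0 := by
    have h2 : ∑ a ∈ insert 0 A, (if a ∈ A then β a else 0) * Complex.exp a =
        ∑ a ∈ A, β a * Complex.exp a := by
      symm
      refine Finset.sum_subset_zero_on_sdiff (Finset.subset_insert _ _) (fun a ha => ?_)
        (fun a ha => by rw [if_pos ha])
      rw [if_neg (Finset.mem_sdiff.1 ha).2, zero_mul]
    have h3 : ∑ a ∈ insert 0 A, (if a = 0 then c else 0) * Complex.exp a = c := by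
      rw [Finset.sum_eq_single_of_mem 0 (Finset.mem_insert_self _ _) (fun b _ hb => by
        rw [if_neg hb, zero_mul]), if_pos rfl, Complex.exp_zero, mul_one]
    simp only [β', sub_mul, Finset.sum_sub_distrib]
    rw [h2, h3, h, sub_self]
  have h2 := lw (insert 0 A) (fun a ha => by
      rcases Finset.mem_insert.1 ha with rfl | ha
      · exact isAlgebraic_zero
      · exact hA a ha) β' (fun a => by
      simp only [β']
      refine IsAlgebraic.sub ?_ ?_
      · split_ifs
        · exact hβ a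
        · exact isAlgebraic_zero
      · split_ifs
        · exact hc
        · exact isAlgebraic_zero) h1 α (Finset.mem_insert_of_mem hα)
  simpa only [β', if_pos hα, if_neg hα0, sub_zero] using h2

/-- an enumeration of the algebraic numbers -/
theorem exists_seq : ∃ f : ℕ → ℂ, (∀ i, Alg (f i)) ∧ ∀ α : ℂ, Alg α → ∃ i, f i = α := by
  have hc : Countable {z : ℂ | IsAlgebraic ℚ z} := Algebraic.countable ℚ ℂ
  have hne : Nonempty {z : ℂ | IsAlgebraic ℚ z} := ⟨⟨0, isAlgebraic_zero⟩⟩
  obtain ⟨f, hf⟩ := exists_surjective_nat {z : ℂ | IsAlgebraic ℚ z}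
  refine ⟨fun i => f i, fun i => (f i).2, fun α hα => ?_⟩
  obtain ⟨i, hi⟩ := hf ⟨α, hα⟩
  exact ⟨i, congrArg Subtype.val hi⟩

/-- the pairs `(a, n)` which may occur together: `n ∈ B`, and `n₀ a ≤ n`, or `n = 1` and
`n₀ a ≤ n'` for all the other `n'` which occur -/
def Admissible {ι : Type} (B : Set ℕ) (n₀ : ι → ℕ) (T : Finset (ι × ℕ)) : Prop :=
  ∀ t ∈ T, t.2 ∈ B ∧ (n₀ t.1 ≤ t.2 ∨ (t.2 = 1 ∧ ∀ s ∈ T, s.2 ≠ 1 → n₀ t.1 ≤ s.2))

/-- the general statement for families -/
theorem family {ι : Type} {l : ℕ → ℂ} (hl : Free l) (v : ι → ℂ) (w : ℕ → ℂ)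
    (hw : ∀ i, ∃ j, w j = v i) :
    ∃ B : Set ℕ, DivisorClosed B ∧ AlmostAll B ∧ ∃ n₀ : ι → ℕ, ∀ T : Finset (ι × ℕ),
      Admissible B n₀ T → ∀ β : ι → ℕ → ℂ, (∀ i n, Alg (β i n)) →
        (∑ t ∈ T, β t.1 t.2 * v t.1 * mono l t.2 = 0 →
          ∀ n, ∑ t ∈ T with t.2 = n, β t.1 n * v t.1 = 0) ∧
        (∑ t ∈ T, β t.1 t.2 * v t.1 * mono l t.2 ∈ Lt →
          ∀ n, n ≠ 1 → (∃ c : ℂ, Alg c ∧ ∑ t ∈ T with t.2 = n, β t.1 n * v t.1 = c) ∧
            (2 ≤ ArithmeticFunction.cardFactors n →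
              ∑ t ∈ T with t.2 = n, β t.1 n * v t.1 = 0)) := by
  classical
  let W : ℕ → Submodule (QC ℂ) ℂ := fun m => Submodule.span (QC ℂ) (w '' Set.Iic m)
  have hWf : ∀ m, FiniteDimensional (QC ℂ) (W m) := fun m =>
    FiniteDimensional.span_of_finite _ ((Set.finite_Iic m).image _)
  obtain ⟨B, M, hM, hB1, hB2, hB3, hB4, hB5, hB6⟩ := mainB hl.good W hWf
  choose j hj using hw
  refine ⟨B, ⟨hB1, fun n hn => ⟨Lac.pos (hB2 n hn), hB3 n hn⟩⟩, almostAll_of hB4,
    fun i => M (j i), fun T hT β hβ => ?_⟩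
  let F : Finset ℕ := T.image Prod.snd
  let u : ℕ → ℂ := fun n => ∑ t ∈ T with t.2 = n, β t.1 n * v t.1
  have hsum : ∑ t ∈ T, β t.1 t.2 * v t.1 * mono l t.2 = ∑ n ∈ F, u n * lam l n := by
    rw [← Finset.sum_fiberwise_of_maps_to (t := F) (g := Prod.snd)
      (fun t ht => Finset.mem_image_of_mem _ ht)]
    refine Finset.sum_congr rfl fun n _ => ?_
    simp only [u]
    rw [Finset.sum_mul]
    refine Finset.sum_congr rfl fun t ht => ?_
    rw [(Finset.mem_filter.1 ht).2, mono_eq]
  have hFB : ∀ n ∈ F, n ∈ B := by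
    intro n hn
    obtain ⟨t, ht, rfl⟩ := Finset.mem_image.1 hn
    exact (hT t ht).1
  have hu : ∀ n ∈ F, n ≠ 1 → u n ≠ 0 → ∃ m, M m ≤ n ∧ ∀ b ∈ F, b ≤ n → u b ∈ V1 (W m) := by
    intro n hn hn1 hun
    -- the largest index
    let S : Finset ℕ := (T.filter fun t => t.2 ≤ n).image fun t => j t.1
    have hS : S.Nonempty := by
      obtain ⟨t, ht, htn⟩ := Finset.mem_image.1 hn
      exact ⟨j t.1, Finset.mem_image.2 ⟨t, Finset.mem_filter.2 ⟨ht, htn.le⟩, rfl⟩⟩
    obtain ⟨s, hs, hsm⟩ := Finset.mem_image.1 (S.max'_mem hS)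
    refine ⟨S.max' hS, ?_, fun b hb hbn => ?_⟩
    · rw [← hsm]
      obtain ⟨hsT, hsn⟩ := Finset.mem_filter.1 hs
      obtain ⟨t, ht, htn⟩ := Finset.mem_image.1 hn
      rcases (hT s hsT).2 with h1 | ⟨h1, h2⟩
      · exact h1.trans hsn
      · have h3 := h2 t ht (by rw [htn]; exact hn1)
        rw [htn] at h3
        exact h3
    · refine Submodule.mem_sup_left (Submodule.sum_mem _ fun t ht => ?_)
      obtain ⟨htT, htb⟩ := Finset.mem_filter.1 ht
      rw [smul_eq (hβ t.1 b)]
      refine Submodule.smul_mem _ _ (Submodule.subset_span ⟨j t.1, ?_, hj t.1⟩)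
      exact S.le_max' _ (Finset.mem_image.2 ⟨t, Finset.mem_filter.2 ⟨htT, by omega⟩, rfl⟩)
  have hout : ∀ n, n ∉ F → u n = 0 := by
    intro n hn
    refine Finset.sum_eq_zero fun t ht => ?_
    obtain ⟨htT, htn⟩ := Finset.mem_filter.1 ht
    exact absurd (Finset.mem_image.2 ⟨t, htT, htn⟩) hn
  rw [hsum]
  refine ⟨fun h0 n => ?_, fun h0 n hn1 => ?_⟩
  · by_cases hn : n ∈ F
    · exact rel0 hB2 hB5 F hFB u hu h0 n hn
    · exact hout n hn
  · by_cases hn : n ∈ F
    · obtain ⟨h1, h2⟩ := relM hl.good hB2 hB6 F hFB u hu h0 n hn hn1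
      refine ⟨?_, h2⟩
      obtain ⟨c, hc⟩ := Submodule.mem_span_singleton.1 h1
      refine ⟨u n, ?_, rfl⟩
      rw [← hc, Algebra.smul_def, mul_one]
      exact mem_QC.1 c.2
    · have h1 := hout n hn
      exact ⟨⟨0, isAlgebraic_zero, h1⟩, fun _ => h1⟩

/-- **Main result.** -/
theorem result :
    -- logarithms of algebraic numbers, linearly independent over the rational numbers (Baker)
    (∀ l : ℕ → ℂ, (∀ p : ℕ, p.Prime → Alg (Complex.exp (l p))) →
      LinearIndependent ℚ (fun p : Nat.Primes => l p) → Free l) ∧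
    ∀ l : ℕ → ℂ, Free l →
      (∃ B : Set ℕ, DivisorClosed B ∧ AlmostAll B ∧
        -- (1) products of exponentials and monomials
        (∃ n₀ : ℂ → ℕ, ∀ T : Finset (ℂ × ℕ), (∀ t ∈ T, Alg t.1) → Admissible B n₀ T →
          ∀ β : ℂ → ℕ → ℂ, (∀ a n, Alg (β a n)) →
          (∑ t ∈ T, β t.1 t.2 * Complex.exp t.1 * mono l t.2 = 0 → ∀ t ∈ T, β t.1 t.2 = 0) ∧
          (¬ Beyond (∑ t ∈ T, β t.1 t.2 * Complex.exp t.1 * mono l t.2) →
            ∀ t ∈ T, β t.1 t.2 ≠ 0 → t.2 = 1 ∨ (t.1 = 0 ∧ t.2.Prime))) ∧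
        -- (2) polynomials
        (∀ (r : ℕ) (α : Fin r → ℂ), (∀ i, Alg (α i)) → LinearIndependent ℚ α → ∀ D : ℕ,
          ∃ n₁ : ℕ, ∀ F : Finset ℕ, (∀ n ∈ F, n ∈ B ∧ (n = 1 ∨ n₁ ≤ n)) →
            ∀ P : ℕ → MvPolynomial (Fin r) (algebraicClosure ℚ ℂ),
              (∀ n ∈ F, (P n).totalDegree ≤ D) →
              ∑ n ∈ F, MvPolynomial.aeval (fun i => Complex.exp (α i)) (P n) * mono l n = 0 →
              ∀ n ∈ F, P n = 0)) ∧
      -- (3) an arbitrary sequence of linearly independent complex numbers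
      (∀ w : ℕ → ℂ, LinearIndependent (algebraicClosure ℚ ℂ) w →
        ∃ B : Set ℕ, DivisorClosed B ∧ AlmostAll B ∧
          ∃ n₀ : ℕ → ℕ, ∀ T : Finset (ℕ × ℕ), Admissible B n₀ T →
            ∀ β : ℕ → ℕ → ℂ, (∀ i n, Alg (β i n)) →
            (∑ t ∈ T, β t.1 t.2 * w t.1 * mono l t.2 = 0 → ∀ t ∈ T, β t.1 t.2 = 0) ∧
            (¬ Beyond (∑ t ∈ T, β t.1 t.2 * w t.1 * mono l t.2) →
              ∀ t ∈ T, 2 ≤ Om t.2 → β t.1 t.2 = 0)) := by
  classical
  refine ⟨fun l hl hli => free_of_log hl hli, fun l hl => ⟨?_, fun w hw => ?_⟩⟩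
  · obtain ⟨f, hf1, hf2⟩ := exists_seq
    obtain ⟨B, hB1, hB2, n₀, hB3⟩ := family hl (fun a : {z : ℂ // Alg z} => Complex.exp a)
      (fun i => Complex.exp (f i)) (fun a => by
        obtain ⟨i, hi⟩ := hf2 a.1 a.2
        exact ⟨i, by simp only [hi]⟩)
    let m₀ : ℂ → ℕ := fun a => if h : Alg a then n₀ ⟨a, h⟩ else 0
    have key : ∀ T : Finset (ℂ × ℕ), (∀ t ∈ T, Alg t.1) → Admissible B m₀ T →
        ∀ β : ℂ → ℕ → ℂ, (∀ a n, Alg (β a n)) →
        (∑ t ∈ T, β t.1 t.2 * Complex.exp t.1 * mono l t.2 = 0 → ∀ t ∈ T, β t.1 t.2 = 0) ∧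
        (∑ t ∈ T, β t.1 t.2 * Complex.exp t.1 * mono l t.2 ∈ Lt →
          ∀ t ∈ T, β t.1 t.2 ≠ 0 → t.2 = 1 ∨ (t.1 = 0 ∧ t.2.Prime)) := by
      intro T hTa hTB β hβ
      let e : {z : ℂ // Alg z} × ℕ ↪ ℂ × ℕ :=
        ⟨fun t => (t.1.1, t.2), fun s t h => by
          obtain ⟨h1, h2⟩ := Prod.mk.inj h
          exact Prod.ext (Subtype.ext h1) h2⟩
      obtain ⟨T', rfl⟩ : ∃ T' : Finset ({z : ℂ // Alg z} × ℕ), T = T'.map e := by
        refine ⟨T.preimage e e.injective.injOn, ?_⟩
        ext t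
        rw [Finset.mem_map]
        constructor
        · intro ht
          exact ⟨(⟨t.1, hTa t ht⟩, t.2), Finset.mem_preimage.2 ht, rfl⟩
        · rintro ⟨s, hs, rfl⟩
          exact Finset.mem_preimage.1 hs
      have hadm : Admissible B n₀ T' := by
        intro t ht
        have h1 := hTB (e t) (Finset.mem_map_of_mem _ ht)
        have h2 : ∀ a : {z : ℂ // Alg z}, m₀ a.1 = n₀ a := fun a => by
          simp only [m₀, dif_pos a.2]
        refine ⟨h1.1, ?_⟩
        rcases h1.2 with h3 | ⟨h3, h4⟩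
        · left
          rw [← h2 t.1]
          exact h3
        · right
          refine ⟨h3, fun s hs hs1 => ?_⟩
          rw [← h2 t.1]
          exact h4 (e s) (Finset.mem_map_of_mem _ hs) hs1
      have h1 := hB3 T' hadm (fun a n => β a.1 n) (fun a n => hβ a.1 n)
      rw [Finset.sum_map]
      -- the fibres
      have hfib : ∀ n : ℕ, ∑ t ∈ T' with t.2 = n, β t.1.1 n * Complex.exp t.1.1 =
          ∑ a ∈ (T'.filter fun t => t.2 = n).image (fun t => t.1.1), β a n * Complex.exp a := by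
        intro n
        rw [Finset.sum_image]
        intro s hs t ht hst
        rw [Finset.mem_coe, Finset.mem_filter] at hs ht
        exact Prod.ext (Subtype.ext hst) (hs.2.trans ht.2.symm)
      have hA : ∀ n : ℕ, ∀ a ∈ (T'.filter fun t => t.2 = n).image (fun t => t.1.1), Alg a := by
        intro n a ha
        obtain ⟨t, _, rfl⟩ := Finset.mem_image.1 ha
        exact t.1.2
      constructor
      · intro h0 t ht
        obtain ⟨s, hs, rfl⟩ := Finset.mem_map.1 ht
        have h2 := h1.1 h0 s.2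
        rw [hfib s.2] at h2
        exact lw _ (hA s.2) (fun a => β a s.2) (fun a => hβ a s.2) h2 s.1.1
          (Finset.mem_image.2 ⟨s, Finset.mem_filter.2 ⟨hs, rfl⟩, rfl⟩)
      · intro h0 t ht hne
        obtain ⟨s, hs, rfl⟩ := Finset.mem_map.1 ht
        by_cases hs1 : s.2 = 1
        · exact Or.inl hs1
        right
        obtain ⟨⟨c, hc, h2⟩, h3⟩ := h1.2 h0 s.2 hs1
        have hsm : s.1.1 ∈ (T'.filter fun t => t.2 = s.2).image (fun t => t.1.1) :=
          Finset.mem_image.2 ⟨s, Finset.mem_filter.2 ⟨hs, rfl⟩, rfl⟩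
        rw [hfib s.2] at h2 h3
        refine ⟨?_, ?_⟩
        · by_contra hs0
          exact hne (lw_const _ (hA s.2) (fun a => β a s.2) (fun a => hβ a s.2) c hc h2 s.1.1 hsm
            hs0)
        · rw [← ArithmeticFunction.cardFactors_eq_one_iff_prime]
          have hpos := (hB1.2 s.2 (hadm s hs).1).1
          have h4 : ArithmeticFunction.cardFactors s.2 ≠ 0 := fun h4 => by
            rw [ArithmeticFunction.cardFactors_eq_zero_iff_eq_zero_or_one] at h4
            omega
          have h5 : ¬ 2 ≤ ArithmeticFunction.cardFactors s.2 := fun h5 =>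
            hne (lw _ (hA s.2) (fun a => β a s.2) (fun a => hβ a s.2) (h3 h5) s.1.1 hsm)
          show ArithmeticFunction.cardFactors s.2 = 1
          omega
    refine ⟨B, hB1, hB2, ⟨m₀, fun T hTa hTB β hβ => ⟨(key T hTa hTB β hβ).1, fun h =>
      (key T hTa hTB β hβ).2 (not_beyond h)⟩⟩, fun r α hα hli D => ?_⟩
    -- polynomials
    let θ : (Fin r →₀ ℕ) → ℂ := fun m => ∑ i, (m i : ℂ) * α i
    have hθ : Function.Injective θ := by
      intro m m' hmm
      have h1 : ∑ i, ((m i : ℚ) - (m' i : ℚ)) • α i = 0 := by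
        have h2 : θ m - θ m' = 0 := sub_eq_zero.2 hmm
        rw [← h2]
        simp only [θ]
        rw [← Finset.sum_sub_distrib]
        refine Finset.sum_congr rfl fun i _ => ?_
        rw [Algebra.smul_def, map_sub, sub_mul]
        simp
      have h2 := Fintype.linearIndependent_iff.1 hli (fun i => (m i : ℚ) - (m' i : ℚ)) h1
      ext i
      have h3 := h2 i
      have h4 : (m i : ℚ) = m' i := sub_eq_zero.1 h3
      exact_mod_cast h4
    have hθa : ∀ m, Alg (θ m) := fun m => by
      refine Finset.sum_induction _ _ (fun _ _ => IsAlgebraic.add) isAlgebraic_zero fun i _ => ?_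
      exact (isAlgebraic_natCast (m i)).mul (hα i)
    let E : Finset (Fin r →₀ ℕ) :=
      (Fintype.piFinset fun _ : Fin r => Finset.range (D + 1)).image
        (fun g => (Finsupp.equivFunOnFinite.symm g : Fin r →₀ ℕ))
    let n₁ : ℕ := E.sup fun m => m₀ (θ m)
    refine ⟨n₁, fun F hF P hP h0 => ?_⟩
    have hsup : ∀ n ∈ F, ∀ m ∈ (P n).support, m₀ (θ m) ≤ n₁ := by
      intro n hn m hm
      refine Finset.le_sup (f := fun m => m₀ (θ m)) (Finset.mem_image.2 ⟨m, ?_, ?_⟩)
      · rw [Fintype.mem_piFinset]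
        intro i
        rw [Finset.mem_range]
        have h1 : m i ≤ m.sum fun _ e => e := by
          by_cases hi : i ∈ m.support
          · exact Finset.single_le_sum (f := fun i => m i) (fun _ _ => Nat.zero_le _) hi
          · rw [Finsupp.notMem_support_iff.1 hi]
            exact Nat.zero_le _
        have h2 := (MvPolynomial.le_totalDegree hm).trans (hP n hn)
        omega
      · ext i
        simp
    let Sg : Finset (Σ _ : ℕ, (Fin r →₀ ℕ)) := F.sigma fun n => (P n).support
    let φ : (Σ _ : ℕ, (Fin r →₀ ℕ)) → ℂ × ℕ := fun x => (θ x.2, x.1)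
    have hφ : Function.Injective φ := by
      rintro ⟨n, m⟩ ⟨n', m'⟩ h
      obtain ⟨h1, h2⟩ := Prod.mk.inj h
      simp only at h1 h2
      subst h2
      rw [hθ h1]
    let T : Finset (ℂ × ℕ) := Sg.image φ
    let β : ℂ → ℕ → ℂ := fun a n =>
      ∑ m ∈ (P n).support, if θ m = a then ((MvPolynomial.coeff m (P n) : QC ℂ) : ℂ) else 0
    have hβθ : ∀ n, ∀ m ∈ (P n).support, β (θ m) n = ((MvPolynomial.coeff m (P n) : QC ℂ) : ℂ) := by
      intro n m hm
      simp only [β]
      rw [Finset.sum_eq_single_of_mem m hm (fun b _ hb => by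
        rw [if_neg fun h => hb (hθ h)]), if_pos rfl]
    have hβa : ∀ a n, Alg (β a n) := by
      intro a n
      refine Finset.sum_induction _ _ (fun _ _ => IsAlgebraic.add) isAlgebraic_zero fun m _ => ?_
      split_ifs
      · exact mem_QC.1 (MvPolynomial.coeff m (P n)).2
      · exact isAlgebraic_zero
    have hmemT : ∀ t ∈ T, ∃ n ∈ F, ∃ m ∈ (P n).support, t = (θ m, n) := by
      intro t ht
      obtain ⟨x, hx, rfl⟩ := Finset.mem_image.1 ht
      rw [Finset.mem_sigma] at hx
      exact ⟨x.1, hx.1, x.2, hx.2, rfl⟩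
    have hTadm : Admissible B m₀ T := by
      intro t ht
      obtain ⟨n, hn, m, hm, rfl⟩ := hmemT t ht
      have h1 := hF n hn
      have h2 := hsup n hn m hm
      refine ⟨h1.1, ?_⟩
      rcases h1.2 with h3 | h3
      · right
        refine ⟨h3, fun s hs hs1 => ?_⟩
        obtain ⟨n', hn', m', hm', rfl⟩ := hmemT s hs
        exact h2.trans ((hF n' hn').2.resolve_left hs1)
      · left
        exact h2.trans h3
    have hres := (key T (fun t ht => by
      obtain ⟨n, hn, m, hm, rfl⟩ := hmemT t ht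
      exact hθa m) hTadm β hβa).1 (by
        rw [Finset.sum_image fun x _ y _ h => hφ h, Finset.sum_sigma, ← h0]
        refine Finset.sum_congr rfl fun n _ => ?_
        rw [MvPolynomial.aeval_def, MvPolynomial.eval₂_eq', Finset.sum_mul]
        refine Finset.sum_congr rfl fun m hm => ?_
        have h1 : ∏ i, Complex.exp (α i) ^ m i = Complex.exp (θ m) := by
          simp only [θ]
          rw [Complex.exp_sum]
          refine Finset.prod_congr rfl fun i _ => ?_
          rw [← Complex.exp_nat_mul]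
        rw [h1]
        show β (θ m) n * Complex.exp (θ m) * mono l n = _
        rw [hβθ n m hm]
        rfl)
    intro n hn
    by_contra hne
    obtain ⟨m, hm⟩ := MvPolynomial.support_nonempty.2 hne
    have h1 := hres (θ m, n) (Finset.mem_image.2 ⟨⟨n, m⟩, Finset.mem_sigma.2 ⟨hn, hm⟩, rfl⟩)
    rw [hβθ n m hm] at h1
    exact MvPolynomial.mem_support_iff.1 hm (Subtype.ext h1)
  · obtain ⟨B, hB1, hB2, n₀, hB3⟩ := family hl w w (fun i => ⟨i, rfl⟩)
    refine ⟨B, hB1, hB2, n₀, fun T hT β hβ => ?_⟩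
    obtain ⟨h1, h2⟩ := hB3 T hT β hβ
    have key : ∀ n, ∑ t ∈ T with t.2 = n, β t.1 n * w t.1 = 0 → ∀ t ∈ T, t.2 = n → β t.1 t.2 = 0 := by
      intro n h0 t ht htn
      have h3 : ∑ i ∈ (T.filter fun t => t.2 = n).image Prod.fst,
          (⟨β i n, mem_QC.2 (hβ i n)⟩ : QC ℂ) • w i = 0 := by
        rw [Finset.sum_image, ← h0]
        · refine Finset.sum_congr rfl fun t _ => ?_
          rw [smul_eq (hβ t.1 n)]
        · intro s hs t ht hst
          rw [Finset.mem_coe, Finset.mem_filter] at hs ht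
          exact Prod.ext hst (hs.2.trans ht.2.symm)
      have h4 := linearIndependent_iff'.1 hw _ _ h3 t.1
        (Finset.mem_image.2 ⟨t, Finset.mem_filter.2 ⟨ht, htn⟩, rfl⟩)
      rw [htn]
      exact congrArg Subtype.val h4
    exact ⟨fun h0 t ht => key t.2 (h1 h0 t.2) t ht rfl, fun h0 t ht ht2 => by
      have ht1 : t.2 ≠ 1 := by
        rintro h3
        rw [h3] at ht2
        simp [Om] at ht2
      exact key t.2 ((h2 (not_beyond h0) t.2 ht1).2 ht2) t ht rfl⟩

end Pool.Agent.Results.MP_c82530_nt.ExponentialMonomials
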