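import Pool.Agent.Q147.LG.CInst
import Pool.Agent.Q147.SP.FewX
import Pool.Agent.H297R2.ExpIndep

/-!
# Gel'fond's conjecture: relations with few monomials

Let `x_1, ..., x_n` be complex numbers, and let `W` be a space of dimension `N` over the field `ℚ̄` of
algebraic numbers which consists of linear forms, with algebraic coefficients, in `1` and logarithms
of algebraic numbers.  Consider the tuples `y ∈ W ^ m` with nonzero coordinates such that `x` together
with any `s` independent linear combinations of the `y_i` is algebraically independent over `ℚ̄`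
(`0 ≤ s < m`), but `(x, y)` satisfies a nontrivial polynomial relation over `ℚ̄`.

1. If the relation has at most `k` monomials and degree at most `D`, then the tuples lie in an
   algebraic subset of dimension at most `(m - 1 - s) N + m (m - 1) + k - 1`, whatever `D` is.
2. For relations with exponents in an ARBITRARY finite set `A` the dimension is at most
   `(m - 1 - s) N + max (m (m h - 1) + ⌊(|A + B| - |B|) / h⌋, m (m - 1) + |B| - 1)`
   for every finite set `B` and every `h ≥ 1` with `m h ≤ |B|`.
3. The case `x_i = e ^ α_i` of the conjecture of Gel'fond: for algebraic numbers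
   `α_1, ..., α_n`, linearly independent over `ℚ`, the tuples `y ∈ W ^ m` with nonzero coordinates for
   which `e ^ α_1, ..., e ^ α_n, y_1, ..., y_m` satisfy a relation of degree at most `D` with at most
   `k` monomials lie in an algebraic subset of dimension at most `(m - 1) N + m (m - 1) + k - 1`; for
   one linear form in logarithms (`m = 1`) the dimension is at most `k - 1`.

The earlier results `MP_c82530_nt.BoundedDegreeStrata` and `MP_c82530_nt.SquareRootStrata` are about
sets `A` which are closed downwards, so that their bounds grow with the degree.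

All parts contain the corresponding bounds for the number of integer matrices `a` with entries at
most `H` for which the tuple `y_i = ∑ a_ij l_j` of logarithms has the property in question.

The proof.  As for the earlier results (tangent vectors and the hyperplane case of the linear
subgroup theorem of Waldschmidt and Roy), but the number of linear relations between the partial
derivatives `(∂f/∂Y_i)(x, y)` is bounded in another way.  We take a relation `f` with the smallest
number of monomials: then some `(∂f/∂Y_i)(x, y)` does not vanish, since otherwise all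
`Y_i ∂f/∂Y_i - c f` have fewer monomials and vanish, so that `f = Y ^ b g (X)` and `g (x) = 0`; and if
the vector `(∂f/∂Y_i)(x, y)_i` is a combination `∑ θ_j u_j` of `s` vectors `u_j` with algebraic
coordinates, then `0 = δ (f (x, y)) = ∑ θ_j δ (u_j y)` for every derivation `δ` of `ℂ` over `ℚ̄` which
vanishes at `x`; since `x, u_1 y, ..., u_s y` are algebraically independent, there are derivations dual
to the `u_j y`, and all `θ_j` vanish.
-/

set_option autoImplicit false

open scoped Pointwise

namespace Pool.Agent.Results.MP_c82530_nt.FewMonomials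

/-- The space of all linear combinations, with algebraic coefficients, of `1` and of logarithms of
algebraic numbers. -/
noncomputable def LogForms : Submodule (algebraicClosure ℚ ℂ) ℂ :=
  Submodule.span (algebraicClosure ℚ ℂ) ({1} ∪ {z : ℂ | IsAlgebraic ℚ (Complex.exp z)})

/-- The numbers `z i` satisfy a nontrivial polynomial relation with algebraic coefficients whose
exponents belong to `A`. -/
def RelationIn {σ : Type} (A : Finset (σ →₀ ℕ)) (z : σ → ℂ) : Prop :=
  ∃ f : MvPolynomial σ (algebraicClosure ℚ ℂ), f ≠ 0 ∧ f.support ⊆ A ∧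
    MvPolynomial.aeval z f = 0

/-- The numbers `z i` satisfy a nontrivial polynomial relation with algebraic coefficients, of total
degree at most `D` and with at most `k` monomials. -/
def FewMonomialRelation {σ : Type} (D k : ℕ) (z : σ → ℂ) : Prop :=
  ∃ f : MvPolynomial σ (algebraicClosure ℚ ℂ), f ≠ 0 ∧ f.totalDegree ≤ D ∧ f.support.card ≤ k ∧
    MvPolynomial.aeval z f = 0

/-- The numbers `x i` together with `s` linear combinations of the `y j` with linearly independent
algebraic coefficient vectors are always algebraically independent. -/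
def Free (s : ℕ) {n m : ℕ} (x : Fin n → ℂ) (y : Fin m → ℂ) : Prop :=
  ∀ u : Fin s → Fin m → algebraicClosure ℚ ℂ, LinearIndependent (algebraicClosure ℚ ℂ) u →
    AlgebraicIndependent (algebraicClosure ℚ ℂ) (Sum.elim x fun k => ∑ j, (u k j : ℂ) * y j)

/-- The tuples with property `R` have dimension at most `q`: first, for every space `W` of linear
forms in logarithms of finite dimension `N`, the tuples `y ∈ W ^ m` with property `R` lie in an
algebraic subset of dimension at most `q N`, that is, any `q N + 1` linear forms satisfy a nontrivial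
polynomial relation at all of them; secondly, for `ℚ`-linearly independent logarithms
`l_1, ..., l_N` of algebraic numbers there are at most `κ H ^ (q N)` integer matrices `a` with entries
at most `H` for which the tuple `∑ a_ij l_j` has property `R`. -/
def DimensionAtMost {m : ℕ} (q : ℕ → ℕ) (R : (Fin m → ℂ) → Prop) : Prop :=
  (∀ (W : Submodule (algebraicClosure ℚ ℂ) ℂ) [FiniteDimensional (algebraicClosure ℚ ℂ) W],
    W ≤ LogForms →
    ∀ φ : Fin (q (Module.finrank (algebraicClosure ℚ ℂ) W) + 1) →
      ((Fin m → W) →ₗ[algebraicClosure ℚ ℂ] algebraicClosure ℚ ℂ),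
    ∃ P : MvPolynomial (Fin (q (Module.finrank (algebraicClosure ℚ ℂ) W) + 1))
        (algebraicClosure ℚ ℂ), P ≠ 0 ∧
      ∀ y : Fin m → W, R (fun i => (y i : ℂ)) → MvPolynomial.eval (fun k => φ k y) P = 0) ∧
  ∀ (N : ℕ) (l : Fin N → ℂ), (∀ j, IsAlgebraic ℚ (Complex.exp (l j))) → LinearIndependent ℚ l →
    ∃ κ : ℕ, ∀ H : ℕ, 1 ≤ H →
      Set.ncard {a : Fin m → Fin N → ℤ | (∀ i j, |a i j| ≤ H) ∧
        R (fun i => ∑ j, (a i j : ℂ) * l j)} ≤ κ * H ^ q N

open Pool.Agent.Q147.LG in
theorem of_thin {m : ℕ} {q q' : ℕ → ℕ} {R : (Fin m → ℂ) → Prop} {S : Set (Fin m → ℂ)}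
    (h : Thin Pool.Agent.H301R2.SSE.Lt q S) (hq : ∀ M, q M ≤ q' M + 1)
    (hR : ∀ y, R y → y ∈ S) : DimensionAtMost q' R := by
  refine ⟨fun W _ hW φ => ?_, fun N l halg hli => ?_⟩
  · obtain ⟨P, h1, h2⟩ := dimC h hq W hW φ
    exact ⟨P, h1, fun y hy => h2 y (hR _ hy)⟩
  · obtain ⟨κ, hκ⟩ := countC h hq l halg hli
    refine ⟨κ, fun H hH => le_trans (Set.ncard_le_ncard ?_ ?_) (hκ H hH)⟩
    · rintro a ⟨h1, h2⟩
      exact ⟨h1, hR _ h2⟩
    · exact (Pool.Agent.Y787.HS.box_finite m N H).subset fun a ha => ha.1

/-- the theorem of Lindemann and Weierstrass, in the form `Free 0` -/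
theorem free_exp {n m : ℕ} (α : Fin n → ℂ) (hα : ∀ i, IsAlgebraic ℚ (α i))
    (hli : LinearIndependent ℚ α) (y : Fin m → ℂ) : Free 0 (fun i => Complex.exp (α i)) y := by
  rintro u -
  rw [algebraicIndependent_iff]
  intro f hf
  by_contra hf0
  let e : Fin n ⊕ Fin 0 ≃ Fin n := Equiv.sumEmpty (Fin n) (Fin 0)
  apply hf0
  apply Pool.Agent.H297R2.exp_noRel f.totalDegree (α ∘ e) (fun i => hα (e i))
    (hli.comp e e.injective) f le_rfl
  rw [← hf]
  congr 1
  congr 1
  funext i
  cases i with
  | inl i => rfl
  | inr i => exact i.elim0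

/-- **Main result.** -/
theorem result :
    (∀ (n m s k D : ℕ), s < m → 1 ≤ k → ∀ x : Fin n → ℂ,
      DimensionAtMost (fun N => (m - 1 - s) * N + (m * (m - 1) + k - 1))
        (fun y : Fin m → ℂ => (∀ i, y i ≠ 0) ∧ Free s x y ∧
          FewMonomialRelation D k (Sum.elim x y))) ∧
    (∀ (n m s h c : ℕ) (A B : Finset ((Fin n ⊕ Fin m) →₀ ℕ)), s < m → 0 < h →
      m * h ≤ B.card → m * (m * h - 1) + ((A + B).card - B.card) / h ≤ c →
      m * (m - 1) + B.card ≤ c + 1 →
      ∀ x : Fin n → ℂ, DimensionAtMost (fun N => (m - 1 - s) * N + c)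
        (fun y : Fin m → ℂ => (∀ i, y i ≠ 0) ∧ Free s x y ∧ RelationIn A (Sum.elim x y))) ∧
    ∀ (n m k D : ℕ) (α : Fin n → ℂ), 0 < m → 1 ≤ k → (∀ i, IsAlgebraic ℚ (α i)) →
      LinearIndependent ℚ α →
      DimensionAtMost (fun N => (m - 1) * N + (m * (m - 1) + k - 1))
        (fun y : Fin m → ℂ => (∀ i, y i ≠ 0) ∧
          FewMonomialRelation D k (Sum.elim (fun i => Complex.exp (α i)) y)) := by
  have := Pool.Agent.Y787.uncountable_complex
  refine ⟨fun n m s k D hs hk x => ?_, fun n m s h c A B hs hh hmB h1 h2 x => ?_,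
    fun n m k D α hm hk hα hli => ?_⟩
  · refine of_thin (Pool.Agent.Q147.SP.thin_fewX hs D k x) (fun M => ?_)
      fun y hy => ⟨hy.2.2, hy.1, hy.2.1⟩
    omega
  · refine of_thin (Pool.Agent.Q147.SP.thin_stratS (c := c + 1) hs hh A B (A + B)
      (fun s hs t ht => Finset.add_mem_add hs ht) hmB x ?_ h2) (fun M => le_rfl)
      fun y hy => ⟨hy.2.2, hy.1, hy.2.1⟩
    rw [mul_comm h m]
    omega
  · refine of_thin (Pool.Agent.Q147.SP.thin_fewX (s := 0) hm D k (fun i => Complex.exp (α i)))
      (fun M => ?_) fun y hy => ⟨hy.2, hy.1, free_exp α hα hli y⟩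
    simp only [Nat.sub_zero]
    omega

end Pool.Agent.Results.MP_c82530_nt.FewMonomials
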