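import Pool.Agent.Q147.LG.CInst
import Pool.Agent.H297R2.ExpIndep

/-!
# Relations between arbitrary numbers and logarithms: the square root of the number of monomials

Let `x_1, ..., x_n` be arbitrary complex numbers, and let `W` be a space of dimension `N` over the
field `ℚ̄` of algebraic numbers which consists of linear forms, with algebraic coefficients, in `1`
and logarithms of algebraic numbers.  Consider the tuples `y ∈ W ^ m` such that `(x, y)` satisfies a
nontrivial polynomial relation over `ℚ̄` with exponents in a finite set `A ⊆ ℕ ^ (n + m)` which is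
closed downwards, while `x` together with any `s` independent linear combinations of the `y_i`
satisfies none of degree at most `D`.  The earlier result `MP_c82530_nt.BoundedDegreeStrata` (for the
set `A` of all exponents of degree at most `D`) says that they lie in an algebraic subset of
dimension at most `(m - 1 - s) N + m (m - 1) + |A| - 1`.  We replace the number `|A|` of monomials
essentially by its square root: for every finite set `B` closed downwards and every `h ≥ 1` with
`m h ≤ |B|` the dimension is at most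

`(m - 1 - s) N + max (m (m h - 1) + ⌊(|A + B| - |B|) / h⌋, m (m - 1) + |B| - 1)`

(`A` and `B` of degree at most `D`).  For relations of degree at most `a_i` in the `i`-th variable it
is less than `(m - 1 - s) N + (m ^ 2 + (m + 1) 2 ^ (n + m - 1)) ∏ (⌊√a_i⌋ + 1)`.

The third part is the case of the conjecture of Gel'fond: for algebraic numbers `α_1, ..., α_n`,
linearly independent over `ℚ`, the tuples `y ∈ W ^ m` of logarithms for which
`e ^ α_1, ..., e ^ α_n, y_1, ..., y_m` satisfy a nontrivial relation of degree at most `a_i` in the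
`i`-th variable lie in an algebraic subset of dimension less than
`(m - 1) N + (m ^ 2 + (m + 1) 2 ^ (n + m - 1)) ∏ (⌊√a_i⌋ + 1)`; for `m = 1` this bound
`(1 + 2 ^ (n + 1)) ∏ (⌊√a_i⌋ + 1)` does not depend on `N`.

All parts contain the corresponding bounds for the number of integer matrices `a` with entries at
most `H` for which the tuple `y_i = ∑ a_ij l_j` of logarithms has the property in question.

The proof.  If the theorem fails there are a tuple `y`, a relation `f (x, y) = 0` and `e` independent
tangent vectors `dy ∈ W ^ m` with `∑ (∂f/∂Y_i)(x, y) dy_i = - (∂f) (x, y)`, where `∂f` is a polynomial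
with exponents in `A`.  We multiply these relations by values `χ_1, ..., χ_h` at `(x, y)` of
polynomials with exponents in `B` whose products with a basis of the span of the `(∂f/∂Y_i)(x, y)` are
linearly independent, and compare the dimension at most `|A + B| - |B|` of the space of the right
hand sides with the hyperplane case of the linear subgroup theorem (Waldschmidt, Roy) with `h m`
coefficients (`Pool.Agent.Q147.LG`).
-/

set_option autoImplicit false

open scoped Pointwise

namespace Pool.Agent.Results.MP_c82530_nt.SquareRootStrata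

/-- The space of all linear combinations, with algebraic coefficients, of `1` and of logarithms of
algebraic numbers. -/
noncomputable def LogForms : Submodule (algebraicClosure ℚ ℂ) ℂ :=
  Submodule.span (algebraicClosure ℚ ℂ) ({1} ∪ {z : ℂ | IsAlgebraic ℚ (Complex.exp z)})

/-- The numbers `z i` satisfy a nontrivial polynomial relation with algebraic coefficients whose
exponents belong to `A`. -/
def RelationIn {σ : Type} (A : Finset (σ →₀ ℕ)) (z : σ → ℂ) : Prop :=
  ∃ f : MvPolynomial σ (algebraicClosure ℚ ℂ), f ≠ 0 ∧ f.support ⊆ A ∧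
    MvPolynomial.aeval z f = 0

/-- The numbers `z i` satisfy a nontrivial polynomial relation with algebraic coefficients of degree
at most `a i` in the `i`-th variable. -/
def RelationOfDegrees {σ : Type} (a : σ → ℕ) (z : σ → ℂ) : Prop :=
  ∃ f : MvPolynomial σ (algebraicClosure ℚ ℂ), f ≠ 0 ∧ (∀ i, f.degreeOf i ≤ a i) ∧
    MvPolynomial.aeval z f = 0

/-- The numbers `z i` satisfy a nontrivial polynomial relation of total degree at most `D` with
algebraic coefficients. -/
def RelationOfDegree {σ : Type} (D : ℕ) (z : σ → ℂ) : Prop :=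
  ∃ f : MvPolynomial σ (algebraicClosure ℚ ℂ), f ≠ 0 ∧ f.totalDegree ≤ D ∧
    MvPolynomial.aeval z f = 0

/-- The numbers `x i` together with `s` linear combinations of the `y j` with linearly independent
algebraic coefficient vectors never satisfy a nontrivial relation of degree at most `D`. -/
def Free (D s : ℕ) {n m : ℕ} (x : Fin n → ℂ) (y : Fin m → ℂ) : Prop :=
  ∀ u : Fin s → Fin m → algebraicClosure ℚ ℂ, LinearIndependent (algebraicClosure ℚ ℂ) u →
    ¬ RelationOfDegree D (Sum.elim x fun k => ∑ j, (u k j : ℂ) * y j)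

/-- The tuples with property `R` have dimension at most `q`: first, for every space `W` of linear
forms in logarithms of finite dimension `N`, the tuples `y ∈ W ^ m` with property `R` lie in an
algebraic subset of dimension at most `q N`, that is, any `q N + 1` linear forms satisfy a nontrivial
polynomial relation at all of them; secondly, for `ℚ`-linearly independent logarithms
`l_1, ..., l_N` of algebraic numbers there are at most `κ H ^ (q N)` integer matrices `a` with entries
at most `H` for which the tuple `∑ a_ij l_j` has property `R`. -/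
def DimensionAtMost {m : ℕ} (q : ℕ → ℕ) (R : (Fin m → ℂ) → Prop) : Prop :=
  (∀ (W : Submodule (algebraicClosure ℚ ℂ) ℂ) [FiniteDimensional (algebraicClosure ℚ ℂ) W],
    W ≤ LogForms →
    ∀ φ : Fin (q (Module.finrank (algebraicClosure ℚ ℂ) W) + 1) →
      ((Fin m → W) →ₗ[algebraicClosure ℚ ℂ] algebraicClosure ℚ ℂ),
    ∃ P : MvPolynomial (Fin (q (Module.finrank (algebraicClosure ℚ ℂ) W) + 1))
        (algebraicClosure ℚ ℂ), P ≠ 0 ∧
      ∀ y : Fin m → W, R (fun i => (y i : ℂ)) → MvPolynomial.eval (fun k => φ k y) P = 0) ∧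
  ∀ (N : ℕ) (l : Fin N → ℂ), (∀ j, IsAlgebraic ℚ (Complex.exp (l j))) → LinearIndependent ℚ l →
    ∃ κ : ℕ, ∀ H : ℕ, 1 ≤ H →
      Set.ncard {a : Fin m → Fin N → ℤ | (∀ i j, |a i j| ≤ H) ∧
        R (fun i => ∑ j, (a i j : ℂ) * l j)} ≤ κ * H ^ q N

open Pool.Agent.Q147.LG in
theorem of_thin {m : ℕ} {q q' : ℕ → ℕ} {R S : (Fin m → ℂ) → Prop}
    (h : Thin Pool.Agent.H301R2.SSE.Lt q {y | S y}) (hq : ∀ M, q M ≤ q' M + 1)
    (hR : ∀ y, R y → S y) : DimensionAtMost q' R := by
  refine ⟨fun W _ hW φ => ?_, fun N l halg hli => ?_⟩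
  · obtain ⟨P, h1, h2⟩ := dimC h hq W hW φ
    exact ⟨P, h1, fun y hy => h2 y (hR _ hy)⟩
  · obtain ⟨κ, hκ⟩ := countC h hq l halg hli
    refine ⟨κ, fun H hH => le_trans (Set.ncard_le_ncard ?_ ?_) (hκ H hH)⟩
    · rintro a ⟨h1, h2⟩
      exact ⟨h1, hR _ h2⟩
    · exact (Pool.Agent.Y787.HS.box_finite m N H).subset fun a ha => ha.1

theorem free_exp {n m D : ℕ} (α : Fin n → ℂ) (hα : ∀ i, IsAlgebraic ℚ (α i))
    (hli : LinearIndependent ℚ α) (y : Fin m → ℂ) :
    Free D 0 (fun i => Complex.exp (α i)) y := by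
  rintro u - ⟨f, hf0, hfD, hf⟩
  let e : Fin n ⊕ Fin 0 ≃ Fin n := Equiv.sumEmpty (Fin n) (Fin 0)
  apply hf0
  apply Pool.Agent.H297R2.exp_noRel D (α ∘ e) (fun i => hα (e i)) (hli.comp e e.injective) f hfD
  rw [← hf]
  congr 1
  congr 1
  funext i
  cases i with
  | inl i => rfl
  | inr i => exact i.elim0

open Pool.Agent.Q147.LG in
theorem boxes {n m s D : ℕ} (hs : s < m) (a : Fin n ⊕ Fin m → ℕ) (hD : m * ∑ i, (a i + 1) ≤ D)
    (x : Fin n → ℂ) {q' : ℕ → ℕ}
    (hq : ∀ N, q' N = (m - 1 - s) * N + (m ^ 2 + (m + 1) * 2 ^ (n + m - 1)) *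
      ∏ i, (Nat.sqrt (a i) + 1) - 1) :
    DimensionAtMost q' (fun y => RelationOfDegrees a (Sum.elim x y) ∧ Free D s x y) := by
  have := Pool.Agent.Y787.uncountable_complex
  refine of_thin (thin_box hs a hD x) (fun M => ?_) fun y hy => ?_
  · rw [hq, con, num]
    omega
  · obtain ⟨⟨f, hf0, hfa, hf⟩, hy2⟩ := hy
    refine ⟨⟨f, hf0, fun s hs => ?_, hf⟩, hy2⟩
    rw [mem_box]
    exact fun i => (MvPolynomial.degreeOf_le_iff.1 (hfa i)) s hs

/-- **Main result.** -/
theorem result :
    (∀ (n m s D h c : ℕ) (A B : Finset ((Fin n ⊕ Fin m) →₀ ℕ)), s < m → 0 < h →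
      IsLowerSet (A : Set ((Fin n ⊕ Fin m) →₀ ℕ)) → IsLowerSet (B : Set ((Fin n ⊕ Fin m) →₀ ℕ)) →
      (∀ t ∈ A, t.degree ≤ D) → (∀ t ∈ B, t.degree ≤ D) →
      m * h ≤ B.card → m * (m * h - 1) + ((A + B).card - B.card) / h ≤ c →
      m * (m - 1) + B.card ≤ c + 1 →
      ∀ x : Fin n → ℂ, DimensionAtMost (fun N => (m - 1 - s) * N + c)
        (fun y => RelationIn A (Sum.elim x y) ∧ Free D s x y)) ∧
    (∀ (n m s D : ℕ) (a : Fin n ⊕ Fin m → ℕ), s < m → m * ∑ i, (a i + 1) ≤ D →
      ∀ x : Fin n → ℂ, DimensionAtMost (fun N => (m - 1 - s) * N +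
          (m ^ 2 + (m + 1) * 2 ^ (n + m - 1)) * ∏ i, (Nat.sqrt (a i) + 1) - 1)
        (fun y => RelationOfDegrees a (Sum.elim x y) ∧ Free D s x y)) ∧
    ∀ (n m : ℕ) (a : Fin n ⊕ Fin m → ℕ) (α : Fin n → ℂ), 0 < m → (∀ i, IsAlgebraic ℚ (α i)) →
      LinearIndependent ℚ α →
      DimensionAtMost (fun N => (m - 1) * N +
          (m ^ 2 + (m + 1) * 2 ^ (n + m - 1)) * ∏ i, (Nat.sqrt (a i) + 1) - 1)
        (fun y => RelationOfDegrees a (Sum.elim (fun i => Complex.exp (α i)) y)) := by
  have := Pool.Agent.Y787.uncountable_complex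
  refine ⟨fun n m s D h c A B hs hh hA hB hAD hBD hmB h1 h2 x => ?_,
    fun n m s D a hs hD x => boxes hs a hD x fun _ => rfl, fun n m a α hm hα hli => ?_⟩
  · refine of_thin (Pool.Agent.Q147.LG.thin_strat (c := c + 1) hs hh A B (A + B)
      (fun s hs t ht => hA ht hs) (fun s hs t ht => hB ht hs) hAD hBD
      (fun s hs t ht => Finset.add_mem_add hs ht) hmB x ?_ h2) (fun M => le_rfl) fun y hy => hy
    rw [mul_comm h m]
    omega
  · have h1 := boxes (D := m * ∑ i, (a i + 1)) hm a le_rfl (fun i => Complex.exp (α i))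
      (q' := fun N => (m - 1) * N + (m ^ 2 + (m + 1) * 2 ^ (n + m - 1)) *
        ∏ i, (Nat.sqrt (a i) + 1) - 1) (fun N => by rw [Nat.sub_zero])
    refine ⟨fun W _ hW φ => ?_, fun N l halg hl => ?_⟩
    · obtain ⟨P, hP1, hP2⟩ := h1.1 W hW φ
      exact ⟨P, hP1, fun y hy => hP2 y ⟨hy, free_exp α hα hli _⟩⟩
    · obtain ⟨κ, hκ⟩ := h1.2 N l halg hl
      refine ⟨κ, fun H hH => le_trans (Set.ncard_le_ncard ?_ ?_) (hκ H hH)⟩
      · rintro b ⟨h2, h3⟩
        exact ⟨h2, h3, free_exp α hα hli _⟩
      · exact (Pool.Agent.Y787.HS.box_finite m N H).subset fun a ha => ha.1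

end Pool.Agent.Results.MP_c82530_nt.SquareRootStrata
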